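import Mathlib

/-! The condition on the prime. -/

set_option autoImplicit false

open Finset

namespace Pool.Agent.MP_3e91a1_nt.F5

/-- the harmonic sum between `p / 5` and `2 p / 5` does not vanish modulo `p` -/
def NW (p : ℕ) : Prop :=
  ∑ y ∈ (Ico 1 p).filter (fun y => p < 5 * y ∧ 5 * y < 2 * p), ((y : ZMod p))⁻¹ ≠ 0

end Pool.Agent.MP_3e91a1_nt.F5
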